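import Pool.Agent.Helper93.TS.Stmts

set_option autoImplicit false

namespace Pool.Agent.Helper93.TS

open Pool.Agent.Helper8.Kak

theorem ap0_ins {Ω : Type} (V : VV → Setoid Ω) (A B : Finset VV) (i : VV)
    (h : B = insert i A) : B.inf V = A.inf V ⊓ V i := by
  rw [h, Finset.inf_insert, inf_comm]

open VV in
theorem st_AP0 (h1 : ST_SPA) : ST_AP0 := by
  intro m α hS
  obtain ⟨C, hC, h⟩ := hS
  refine ⟨C, hC, fun N D => ?_⟩
  have hN := D.hN
  have hN0 : (0 : ℝ) < (N : ℝ) := by exact_mod_cast hN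
  have hN1 : (1 : ℝ) ≤ (N : ℝ) := by exact_mod_cast hN
  have hd0 : 0 < cd N := by unfold cd; positivity
  have hd1 : cd N ≤ 1 := by
    unfold cd
    rw [div_le_one hN0]
    exact hN1
  have hd2 : 1 ≤ cd N * ((N * N : ℕ) : ℝ) := by
    unfold cd
    push_cast
    rw [one_div, ← mul_assoc, inv_mul_cancel₀ hN0.ne', one_mul]
    exact hN1
  have hlog : Real.log ((N * N : ℕ) : ℝ) = 2 * Real.log N := by
    push_cast
    rw [Real.log_mul hN0.ne' hN0.ne']
    ring
  constructor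
  · have e := h (cd N) (N * N) hd0 hd1 hd2 D.L D.x D.v D.hv D.Ω D.p D.hp ⊤ D.l D.T
    rw [hlog] at e
    simp only [top_inf_eq, Ent_top D.hp, sub_zero] at e
    have e1 : D.κ = 2 * Real.log N - (D.eB - D.eL) := rfl
    rw [e1]
    exact e
  · have e := h (cd N) (N * N) hd0 hd1 hd2 D.L D.x D.v D.hv (Z D.Ω) D.pz (h1 m N D).1
      (({T0, T1, b, w} : Finset VV).inf D.V) (fun y => D.l (z1 y)) (fun y => D.T (zR y))
    rw [hlog] at e
    have e1 : ({T0, T1, b, w, d1} : Finset VV).inf D.V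
        = ({T0, T1, b, w} : Finset VV).inf D.V ⊓ D.V d1 := ap0_ins _ _ _ _ (by decide)
    have e2 : ({T0, T1, b, w, R} : Finset VV).inf D.V
        = ({T0, T1, b, w} : Finset VV).inf D.V ⊓ D.V R := ap0_ins _ _ _ _ (by decide)
    have e3 : ({T0, T1, b, w, R, PRc} : Finset VV).inf D.V
        = ({T0, T1, b, w} : Finset VV).inf D.V ⊓ D.V R ⊓ D.V PRc := by
      rw [← e2]
      exact ap0_ins _ _ _ _ (by decide)
    have e4 : ({T0, T1, b, w, l1} : Finset VV).inf D.V
        = ({T0, T1, b, w} : Finset VV).inf D.V ⊓ D.V l1 := ap0_ins _ _ _ _ (by decide)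
    have e5 : ({T0, T1, b, w, l1, R} : Finset VV).inf D.V
        = ({T0, T1, b, w} : Finset VV).inf D.V ⊓ D.V l1 ⊓ D.V R := by
      rw [← e4]
      exact ap0_ins _ _ _ _ (by decide)
    show Ent D.pz (({T0, T1, b, w, d1} : Finset VV).inf D.V)
        - Ent D.pz (({T0, T1, b, w} : Finset VV).inf D.V)
      ≤ α * (Ent D.pz (({T0, T1, b, w, R, PRc} : Finset VV).inf D.V)
          - Ent D.pz (({T0, T1, b, w, R} : Finset VV).inf D.V))
        + C * (2 * Real.log N - (Ent D.pz (({T0, T1, b, w, l1, R} : Finset VV).inf D.V)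
          - Ent D.pz (({T0, T1, b, w, l1} : Finset VV).inf D.V)) + 1)
    rw [e1, e2, e3, e4, e5]
    exact e

end Pool.Agent.Helper93.TS
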