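import Pool.Agent.Helper8.KT.Final
import Pool.Agent.Helper24.KT.AP
import Pool.Agent.Helper73.KT.MC
import Pool.Agent.Helper53.KT.ST
import Pool.Agent.Helper85.KT.NOI
import Pool.Agent.Helper58.KT.REC

/-! All rows of project KT. -/

namespace Pool.Agent.Helper8.KT

theorem allFin.{u} : ST_FIN.{u} :=
  stFIN (stREC (Pool.Agent.Helper53.KT.stST (Pool.Agent.Helper73.KT.stMC stAP)))
    Pool.Agent.Helper85.KT.stNOI

end Pool.Agent.Helper8.KT
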