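import Pool.Agent.Helper93.TS.Stmts

set_option autoImplicit false

namespace Pool.Agent.Helper93.TS

open Pool.Agent.Helper8.Kak

theorem st_FC : ST_FC := by
  intro m N hN u u' h
  have hN0 : (0 : ℝ) < (N : ℝ) := by exact_mod_cast hN
  funext i
  have hi := congrFun h i
  unfold cell at hi ⊢
  unfold fd at hi
  unfold cd
  have e : ∀ a : ℝ, a / (1 / (N : ℝ)) = (a / (1 / ((N * N : ℕ) : ℝ))) / (N : ℕ) := by
    intro a
    push_cast
    field_simp
  rw [e, e, Int.floor_div_natCast, Int.floor_div_natCast]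
  rw [hi]

end Pool.Agent.Helper93.TS
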