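import Pool.Agent.Helper8.KT.Sheet

/-! Row FIN. -/

open scoped ContDiff
open Set Filter Topology MeasureTheory

namespace Pool.Agent.Helper8.KT

theorem stFIN.{u} (hR : ST_REC) (hN : ST_NOI) : ST_FIN.{u} := by
  intro X _ _ k c hk hX f hf z hz ε hε
  obtain ⟨D, hD⟩ : ∃ D : ℝ, D = ε / 10 := ⟨_, rfl⟩
  obtain ⟨δ, hδ⟩ : ∃ δ : ℝ, δ = ε / 200 := ⟨_, rfl⟩
  have hD0 : 0 < D := by rw [hD]; positivity
  have hδ0 : 0 < δ := by rw [hδ]; positivity
  have hr : 0 < D - 6 * δ := by rw [hD, hδ]; linarith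
  obtain ⟨ν, hν1, hν2, hν3⟩ := hX δ hδ0
  obtain ⟨P, hP, hPb, hPs⟩ := hN δ hδ0
  have hνa : ∀ x, ‖x‖ - δ ≤ ν x ∧ ν x ≤ ‖x‖ + δ := fun x => by
    have := abs_le.1 (hν3 x)
    exact ⟨by linarith [this.1], by linarith [this.2]⟩
  let d : ℕ → ℕ → ℝ := fun i j => if i = j then 0 else ‖z i - z j‖ + 4 * δ
  have hd0 : ∀ i j, ‖z i - z j‖ ≤ d i j := by
    intro i j
    by_cases h : i = j
    · simp [d, h]
    · simp only [d, h, if_false]
      linarith
  have hd1 : ∀ i j, i ≠ j → d i j = ‖z i - z j‖ + 4 * δ := fun i j h => if_neg h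
  have hd2 : ∀ i, d i i = 0 := fun i => if_pos rfl
  have hdle : ∀ i j, d i j ≤ ‖z i - z j‖ + 4 * δ := by
    intro i j
    by_cases h : i = j
    · rw [h, hd2, sub_self, norm_zero]
      linarith
    · rw [hd1 i j h]
  have hd : Met d := by
    refine ⟨hd2, fun i j => ?_, fun i j l => ?_⟩
    · by_cases h : i = j
      · rw [h]
      · rw [hd1 i j h, hd1 j i (Ne.symm h), norm_sub_rev]
    · have hpos : ∀ i j, 0 ≤ d i j := fun i j => (norm_nonneg _).trans (hd0 i j)
      by_cases h1 : i = j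
      · rw [h1, hd2, zero_add]
      · have h3 := norm_sub_le_norm_sub_add_norm_sub (z i) (z j) (z l)
        have h4 := hd0 j l
        have h5 := hdle i l
        rw [hd1 i j h1]
        linarith
  have hfd : ∀ i j, |f (z i) - f (z j)| ≤ d i j := fun i j => (hf _ _).trans (hd0 i j)
  obtain ⟨G, hG1, hG2, hG3⟩ := hR d hd (fun i => f (z i)) hfd D hD0.le
  let Y : X → (ℕ → ℝ) → ℕ → ℝ := fun x t j => ν (x - z j) + 4 * δ + t j
  have hKat : ∀ x t, (∀ j, |t j| ≤ δ) → Kat d (Y x t) := by
    intro x t ht i j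
    have ti := abs_le.1 (ht i)
    have tj := abs_le.1 (ht j)
    have ni := hνa (x - z i)
    have nj := hνa (x - z j)
    have e1 : ‖x - z i‖ - ‖x - z j‖ ≤ ‖z i - z j‖ := by
      have := norm_sub_norm_le (x - z i) (x - z j)
      rw [sub_sub_sub_cancel_left] at this
      rw [norm_sub_rev (z i) (z j)]
      exact this
    have e2 : ‖x - z j‖ - ‖x - z i‖ ≤ ‖z i - z j‖ := by
      have := norm_sub_norm_le (x - z j) (x - z i)
      rwa [sub_sub_sub_cancel_left] at this
    have e3 : ‖z i - z j‖ ≤ ‖x - z i‖ + ‖x - z j‖ := by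
      have := norm_sub_le (x - z j) (x - z i)
      rw [sub_sub_sub_cancel_left] at this
      linarith
    by_cases h : i = j
    · subst h
      rw [hd2]
      simp only [sub_self, abs_zero, le_refl, true_and, Y]
      linarith [norm_nonneg (x - z i), ni.1, ti.1]
    · rw [hd1 i j h]
      refine ⟨?_, ?_⟩
      · rw [abs_le]
        simp only [Y]
        constructor <;> linarith [ni.1, ni.2, nj.1, nj.2, ti.1, ti.2, tj.1, tj.2]
      · simp only [Y]
        linarith [ni.1, ni.2, nj.1, nj.2, ti.1, ti.2, tj.1, tj.2]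
  have hnear : ∀ x t, (∀ j, |t j| ≤ δ) → ∀ j, ‖x - z j‖ < D - 6 * δ → Y x t j ≤ D := by
    intro x t ht j hj
    have tj := abs_le.1 (ht j)
    have nj := hνa (x - z j)
    simp only [Y]
    linarith [tj.2, nj.2]
  let g : (n : ℕ) → (Fin (n + 1) → ℝ) → ℝ := fun n a =>
    G n (fun i => if h : i < n + 1 then a ⟨i, h⟩ else 0)
  have hgc : ∀ n, Continuous (g n) := by
    intro n
    have : LipschitzWith 1 (g n) := by
      refine LipschitzWith.of_dist_le_mul fun a b => ?_
      rw [NNReal.coe_one, one_mul, Real.dist_eq]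
      refine hG1 n _ _ _ fun j hj => ?_
      have hj' : j < n + 1 := Nat.lt_succ_of_le hj
      simp only [hj', dif_pos]
      rw [← Real.dist_eq]
      exact dist_le_pi_dist a b ⟨j, hj'⟩
    exact this.continuous
  have hgG : ∀ n x t, g n (fun i : Fin (n + 1) => (ν (x - z i) + 4 * δ) + t i) =
      G n (Y x t) := by
    intro n x t
    have h := hG1 n (fun i => if h : i < n + 1 then
      (fun i : Fin (n + 1) => (ν (x - z i) + 4 * δ) + t i) ⟨i, h⟩ else 0) (Y x t) 0 (by
        intro j hj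
        have hj' : j < n + 1 := Nat.lt_succ_of_le hj
        simp only [hj', dif_pos, Y]
        simp)
    have h2 := abs_le.1 h
    exact le_antisymm (by simp only [g]; linarith [h2.2]) (by simp only [g]; linarith [h2.1])
  let Kn : ℕ → X → ℝ := fun n x => ∫ t, G n (Y x t) ∂P
  have hint : ∀ n x, Integrable (fun t => G n (Y x t)) P := by
    intro n x
    have := (hPs n (g n) (hgc n)).1 (fun i => ν (x - z i) + 4 * δ)
    refine this.congr (ae_of_all _ fun t => ?_)
    exact hgG n x t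
  have hKn : ∀ n, ContDiff ℝ k (Kn n) := by
    intro n
    have h1 := ((hPs n (g n) (hgc n)).2).of_le hk
    have h2 : ContDiff ℝ k fun x : X => (fun i : Fin (n + 1) => ν (x - z i) + 4 * δ) := by
      rw [contDiff_pi]
      intro i
      exact (hν1.comp (contDiff_id.sub contDiff_const)).add contDiff_const
    have h3 := h1.comp h2
    have h4 : Kn n = (fun a : Fin (n + 1) → ℝ => ∫ t, g n (fun i => a i + t i) ∂P) ∘
        fun x : X => (fun i : Fin (n + 1) => ν (x - z i) + 4 * δ) := by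
      funext x
      simp only [Function.comp]
      exact integral_congr_ae (ae_of_all _ fun t => (hgG n x t).symm)
    rw [h4]
    exact h3
  have hex : ∀ x : X, ∃ n, ‖x - z n‖ < D - 6 * δ := by
    intro x
    obtain ⟨j, hj⟩ := hz.exists_dist_lt x hr
    exact ⟨j, by rwa [dist_eq_norm] at hj⟩
  have hstab : ∀ x n, (∃ j ≤ n, ‖x - z j‖ < D - 6 * δ) → ∀ m, n ≤ m → Kn m x = Kn n x := by
    rintro x n ⟨j, hj, hj'⟩ m hm
    refine integral_congr_ae ?_
    filter_upwards [hPb] with t ht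
    exact hG3 n m hm _ (hKat x t ht) ⟨j, hj, hnear x t ht j hj'⟩
  choose N hN' using hex
  let K : X → ℝ := fun x => Kn (N x) x
  have hK : ∀ x n, (∃ j ≤ n, ‖x - z j‖ < D - 6 * δ) → K x = Kn n x := by
    intro x n hn
    rw [← hstab x n hn (max (N x) n) (le_max_right _ _)]
    exact (hstab x (N x) ⟨N x, le_rfl, hN' x⟩ (max (N x) n) (le_max_left _ _)).symm
  refine ⟨K, ?_, ?_, ?_⟩
  · rw [contDiff_iff_contDiffAt]
    intro x
    have hopen : ∀ᶠ y in 𝓝 x, ‖y - z (N x)‖ < D - 6 * δ :=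
      (isOpen_lt (by fun_prop) continuous_const).mem_nhds (hN' x)
    have heq : K =ᶠ[𝓝 x] Kn (N x) := by
      filter_upwards [hopen] with y hy
      exact hK y (N x) ⟨N x, le_rfl, hy⟩
    exact (hKn (N x)).contDiffAt.congr_of_eventuallyEq heq
  · intro x y
    rw [hK x (max (N x) (N y)) ⟨N x, le_max_left _ _, hN' x⟩,
      hK y (max (N x) (N y)) ⟨N y, le_max_right _ _, hN' y⟩]
    simp only [Kn]
    rw [← integral_sub (hint _ x) (hint _ y), ← Real.norm_eq_abs]
    have hb : ∀ᵐ t ∂P, ‖G (max (N x) (N y)) (Y x t) - G (max (N x) (N y)) (Y y t)‖ ≤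
        c * ‖x - y‖ := by
      refine ae_of_all _ fun t => ?_
      rw [Real.norm_eq_abs]
      refine hG1 _ _ _ _ fun j _ => ?_
      simp only [Y]
      have := hν2 (x - z j) (y - z j)
      rw [sub_sub_sub_cancel_right] at this
      have e : ν (x - z j) + 4 * δ + t j - (ν (y - z j) + 4 * δ + t j) =
        ν (x - z j) - ν (y - z j) := by ring
      rwa [e]
    have := norm_integral_le_of_norm_le_const hb
    simpa using this
  · intro x
    have hb : ∀ᵐ t ∂P, ‖f x - G (N x) (Y x t)‖ ≤ 4 * D := by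
      filter_upwards [hPb] with t ht
      have h1 := hnear x t ht (N x) (hN' x)
      have h2 := hG2 (N x) (Y x t) (hKat x t ht) ⟨N x, le_rfl, h1⟩ (N x)
      have h3 := abs_le.1 (hf x (z (N x)))
      have h4 := hN' x
      rw [Real.norm_eq_abs, abs_le]
      constructor
      · linarith [h2.1, h2.2, h3.1, h3.2]
      · linarith [h2.1, h2.2, h3.1, h3.2]
    have h1 : f x - K x = ∫ t, (f x - G (N x) (Y x t)) ∂P := by
      rw [integral_sub (integrable_const _) (hint _ x)]
      simp [K, Kn]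
    rw [h1, ← Real.norm_eq_abs]
    have := norm_integral_le_of_norm_le_const hb
    have h2 : ‖∫ t, (f x - G (N x) (Y x t)) ∂P‖ ≤ 4 * D := by simpa using this
    refine h2.trans_lt ?_
    rw [hD]
    linarith

end Pool.Agent.Helper8.KT
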