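import Mathlib

/-! Sheet KT, second part. -/

open scoped ZeroAtInfty
open Set Filter Topology

namespace Pool.Agent.Helper8.KT

/-- Row DC0: the dual of `c_0(ℕ; Z)` is separable if the dual of `Z` is. For `f` in the dual let
`f_i = f ∘ emb_i`; `∑ ‖f_i‖ ≤ ‖f‖` (test on finite sums of almost norming vectors), and
`‖f - ∑_{i < n} f_i ∘ ev_i‖ = ∑_{i ≥ n} ‖f_i‖ → 0`, or: `f - ∑_{i<n} f_i ∘ ev_i → 0` in norm by a
gliding hump; so the union over `n` of the ranges of the continuous maps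
`(Fin n → Z*) → (c_0(ℕ; Z))*`, `g ↦ ∑ g_i ∘ ev_i`, is dense
(`Pool.Agent.Helper94.SR.Emb`, `Res` have `emb`, `rs`). -/
def ST_DC0.{u} : Prop := ∀ (Z : Type u) [NormedAddCommGroup Z] [NormedSpace ℝ Z]
  [TopologicalSpace.SeparableSpace (StrongDual ℝ Z)],
  TopologicalSpace.SeparableSpace (StrongDual ℝ C₀(ℕ, Z))

end Pool.Agent.Helper8.KT
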