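import Pool.Agent.Helper8.KT.Fin
import Pool.Agent.Helper8.KT.Sheet2
import Pool.Agent.Helper8.SE.HR
import Pool.Agent.Helper31.SE.NU
import Pool.Agent.Helper1.SE.HB
import Pool.Agent.Helper49.SE.PHC
import Pool.Agent.Helper63.SE.ULT
import Pool.Agent.Helper46.SE.PHM
import Pool.Agent.Helper28.SE.SEP
import Pool.Agent.Helper84.SE.KK
import Pool.Agent.Helper47.SE.PHI

/-! Constant one for separable spaces. -/

open scoped ContDiff NNReal
open Set Filter Topology

namespace Pool.Agent.Helper8.KT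

open Pool.Agent.Helper8.SE

theorem allNu.{u} : ST_NU.{u} :=
  Pool.Agent.Helper31.SE.stNU (Pool.Agent.Helper47.SE.stPHI (stPHM Pool.Agent.Helper63.SE.stULT)
    Pool.Agent.Helper49.SE.stPHC
    (Pool.Agent.Helper84.SE.stKK Pool.Agent.Helper1.SE.stHB Pool.Agent.Helper63.SE.stULT))

/-- Separable spaces whose norm can be approximated. -/
theorem star_of_normApp.{u} (hF : ST_FIN.{u}) (X : Type u) [NormedAddCommGroup X]
    [NormedSpace ℝ X] [TopologicalSpace.SeparableSpace X] (k : WithTop ℕ∞) (hk : k ≤ ∞) (c : ℝ≥0)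
    (hX : NormApp k X c) (f : X → ℝ) (L : ℝ≥0)
    (hf : LipschitzWith L f) (ε : ℝ) (hε : 0 < ε) :
    ∃ K : X → ℝ, ContDiff ℝ k K ∧ LipschitzWith (c * L) K ∧ ∀ x, |f x - K x| < ε := by
  rcases eq_or_ne L 0 with h0 | h0
  · refine ⟨f, ?_, ?_, fun x => by simpa using hε⟩
    · have : f = fun _ => f 0 := by
        funext x
        have := hf.dist_le_mul x 0
        rw [h0] at this
        simp only [NNReal.coe_zero, zero_mul] at this
        exact dist_le_zero.1 this
      rw [this]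
      exact contDiff_const
    · rw [h0, mul_zero]
      rwa [h0] at hf
  · have hL : (0 : ℝ) < L := by
      have : 0 < L := pos_iff_ne_zero.2 h0
      exact_mod_cast this
    have hf1 : ∀ x y, |f x / L - f y / L| ≤ ‖x - y‖ := by
      intro x y
      rw [← sub_div, abs_div, abs_of_pos hL, div_le_iff₀ hL]
      have := hf.dist_le_mul x y
      rw [Real.dist_eq, dist_eq_norm] at this
      linarith
    obtain ⟨K, hK1, hK2, hK3⟩ := hF X k c hk hX (fun x => f x / L) hf1
      (TopologicalSpace.denseSeq X) (TopologicalSpace.denseRange_denseSeq X) (ε / L)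
      (by positivity)
    refine ⟨fun x => L * K x, contDiff_const.mul hK1, ?_, fun x => ?_⟩
    · refine LipschitzWith.of_dist_le_mul fun x y => ?_
      rw [Real.dist_eq, dist_eq_norm, ← mul_sub, abs_mul, abs_of_pos hL]
      push_cast
      nlinarith [hK2 x y]
    · have h := hK3 x
      have h2 : f x - L * K x = L * (f x / L - K x) := by field_simp
      rw [h2, abs_mul, abs_of_pos hL]
      rw [lt_div_iff₀ hL] at h
      linarith

/-- Separable dual. -/
theorem star_of_dual.{u} (hF : ST_FIN.{u}) (X : Type u) [NormedAddCommGroup X]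
    [NormedSpace ℝ X] [TopologicalSpace.SeparableSpace (StrongDual ℝ X)]
    (f : X → ℝ) (L : ℝ≥0) (hf : LipschitzWith L f) (ε : ℝ) (hε : 0 < ε) :
    ∃ K : X → ℝ, ContDiff ℝ 1 K ∧ LipschitzWith (1 * L) K ∧ ∀ x, |f x - K x| < ε := by
  have hs : TopologicalSpace.SeparableSpace X := stSEP X
  have h := allNu X
  exact star_of_normApp hF X 1 (by exact_mod_cast le_top) 1 (by simpa using h) f L hf ε hε

/-- Separable dual, equivalent norms as seminorms. -/
theorem hR_one.{u} (hF : ST_FIN.{u}) {V : Type u} [NormedAddCommGroup V] [NormedSpace ℝ V]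
    [TopologicalSpace.SeparableSpace (StrongDual ℝ V)]
    (q : Seminorm ℝ V) (M : ℝ) (hM : 0 < M) (h1 : ∀ w, q w ≤ M * ‖w‖)
    (h2 : ∀ w, ‖w‖ ≤ M * q w) (g : V → ℝ) (Λ : ℝ) (hΛ : 0 ≤ Λ)
    (hg : ∀ x y, |g x - g y| ≤ Λ * q (x - y)) (δ : ℝ) (hδ : 0 < δ) :
    ∃ K : V → ℝ, ContDiff ℝ 1 K ∧ (∀ x y, |K x - K y| ≤ (1 : ℝ≥0) * Λ * q (x - y)) ∧
      ∀ x, |g x - K x| < δ :=
  hR_of 1 (fun Z _ _ _ f L hf ε hε => star_of_dual hF Z f L hf ε hε) q M hM h1 h2 g Λ hΛ hg δ
    hδ

end Pool.Agent.Helper8.KT
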