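import Pool.Agent.Helper93.TS.Stmts

set_option autoImplicit false

namespace Pool.Agent.Helper93.TS

open Pool.Agent.Helper8.Kak

section

variable {Ω L D : Type} [Fintype Ω] {N : ℕ} {p : Ω → ℝ} (l : Ω → L) (T : Ω → Fin (N * N))
  (P : L → Fin (N * N) → D)

theorem spa_mp0 (hp : IsProb p) :
    MP (pY2 p ⊤ l T P) p (fun y => y.2.1.1) :=
  (Y2_snd ⊤ l T P hp).comp ((Y1_fst ⊤ l T P hp).comp (A1_fst ⊤ l hp))

theorem spa_law (hp : IsProb p) (c : L × Fin N) :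
    law (pY2 p ⊤ l T P) (fun y => fJ l T y.2.1.1) c = law p (fJ l T) c :=
  (spa_mp0 l T P hp).law_eq (fJ l T) c

theorem spa_prob (hp : IsProb p) : IsProb (pZ p l T P) :=
  glue_isProb (Y2_prob ⊤ l T P hp) hp (spa_law l T P hp)

theorem spa_fst (hp : IsProb p) : MP (pZ p l T P) (pY2 p ⊤ l T P) Prod.fst :=
  glue_fst (Y2_prob ⊤ l T P hp).1 (spa_law l T P hp)

theorem spa_snd (hp : IsProb p) : MP (pZ p l T P) p Prod.snd :=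
  glue_snd hp.1 (spa_law l T P hp)

theorem spa_Y1 (hp : IsProb p) : MP (pZ p l T P) (pY1 p ⊤ l T P) (fun y => y.1.2) :=
  (spa_fst l T P hp).comp (Y2_snd ⊤ l T P hp)

theorem spa_links (hp : IsProb p) {y : Z Ω} (hy : 0 < pZ p l T P y) :
    l (z0 y) = l (zS y) ∧ l (z1 y) = l (zR y) ∧
    (T (z0 y) = T (z1 y) ∧ P (l (z0 y)) (T (z0 y)) = P (l (z1 y)) (T (z1 y))) ∧
    l (zT y) = l (z0 y) ∧ fJ l T (z0 y) = fJ l T (zB y) := by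
  have h3 := (spa_prob l T P hp).1
  have h2 := (Y2_prob ⊤ l T P hp).1
  have h1 := (Y1_prob ⊤ l T P hp).1
  have hy2 : 0 < pY2 p ⊤ l T P y.1 := (spa_fst l T P hp).pos h3 hy
  have hy1 : 0 < pY1 p ⊤ l T P y.1.2 := (Y2_snd ⊤ l T P hp).pos h2 hy2
  have hyA1 : 0 < pA1 p ⊤ l y.1.2.1 := (Y1_fst ⊤ l T P hp).pos h1 hy1
  have hyA2 : 0 < pA1 p ⊤ l y.1.2.2 := (Y1_snd ⊤ l T P hp).pos h1 hy1
  have g1 : fP ⊤ l T P (y.1.2.1.1) = fP ⊤ l T P (y.1.2.2.1) := glue_link hy1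
  have g2 : fL ⊤ l y.1.1 = fL ⊤ l y.1.2.1.1 := glue_link hy2
  exact ⟨(fL_eq.1 (glue_link hyA1)).2, (fL_eq.1 (glue_link hyA2)).2, (fP_eq.1 g1).2,
    (fL_eq.1 g2).2, glue_link hy⟩

end

theorem st_SPA (h1 : ST_FC) : ST_SPA := by
  intro m N D
  have hp := D.hp
  refine ⟨spa_prob D.l D.T D.Pf hp, ?_, ?_, ?_, ?_, ?_, ?_, ?_⟩
  · intro y hy
    obtain ⟨a1, a2, ⟨a3, a4⟩, a5, a6⟩ := spa_links D.l D.T D.Pf hp hy
    have a7 : D.l (z0 y) = D.l (zB y) := congrArg Prod.fst a6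
    have a8 : Jc (D.T (z0 y)) = Jc (D.T (zB y)) := congrArg Prod.snd a6
    have a9 : D.Pf (D.l (z1 y)) (D.T (z0 y)) = D.Pf (D.l (z0 y)) (D.T (z0 y)) := by
      rw [a4, a3]
    exact ⟨a1.symm, a5, a2.symm, a7.symm, a3.symm, a8.symm, a9, h1 m N D.hN _ _ a9⟩
  · exact (spa_Y1 D.l D.T D.Pf hp).comp ((Y1_fst ⊤ D.l D.T D.Pf hp).comp (A1_fst ⊤ D.l hp))
  · exact (spa_Y1 D.l D.T D.Pf hp).comp ((Y1_fst ⊤ D.l D.T D.Pf hp).comp (A1_snd ⊤ D.l hp))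
  · exact (spa_Y1 D.l D.T D.Pf hp).comp ((Y1_snd ⊤ D.l D.T D.Pf hp).comp (A1_fst ⊤ D.l hp))
  · exact (spa_Y1 D.l D.T D.Pf hp).comp ((Y1_snd ⊤ D.l D.T D.Pf hp).comp (A1_snd ⊤ D.l hp))
  · exact (spa_fst D.l D.T D.Pf hp).comp (Y2_fst ⊤ D.l D.T D.Pf hp)
  · exact spa_snd D.l D.T D.Pf hp

end Pool.Agent.Helper93.TS
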