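import Pool.Agent.Helper8.SE.Sheet

/-! Sheet KT (MP_3a8adc_an): separable spaces, constant one. -/

open scoped ContDiff
open Set Filter Topology MeasureTheory

namespace Pool.Agent.Helper8.KT

/-- A pseudometric on `ℕ`. -/
structure Met (d : ℕ → ℕ → ℝ) : Prop where
  self : ∀ i, d i i = 0
  symm : ∀ i j, d i j = d j i
  tri : ∀ i j k, d i k ≤ d i j + d j k

/-- Katětov functions. -/
def Kat (d : ℕ → ℕ → ℝ) (y : ℕ → ℝ) : Prop := ∀ i j, |y i - y j| ≤ d i j ∧ d i j ≤ y i + y j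

/-- Row AP: put `w j = min (r + y j) (min_{i ≤ n} (η i + d i j))`. -/
def ST_AP : Prop := ∀ (d : ℕ → ℕ → ℝ), Met d → ∀ (n : ℕ) (y η : ℕ → ℝ) (r : ℝ), Kat d y →
  Kat d η → (∀ j ≤ n, |y j - η j| ≤ r) →
  ∃ w : ℕ → ℝ, Kat d w ∧ (∀ j ≤ n, w j = η j) ∧ ∀ j, |y j - w j| ≤ r

/-- `G` is `1`-Lipschitz in the first `n + 1` coordinates (sup norm), and depends on them only. -/
def Lip1 (n : ℕ) (G : (ℕ → ℝ) → ℝ) : Prop := ∀ (y y' : ℕ → ℝ) (r : ℝ),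
  (∀ j ≤ n, |y j - y' j| ≤ r) → |G y - G y'| ≤ r

/-- The invariant. -/
def Inv (d : ℕ → ℕ → ℝ) (f : ℕ → ℝ) (D : ℝ) (n : ℕ) (G : (ℕ → ℝ) → ℝ) : Prop :=
  ∀ y, Kat d y → (∃ j ≤ n, y j ≤ D) → ∀ j, f j - y j - 2 * D ≤ G y ∧ G y ≤ f j + y j + 2 * D

/-- Row MC (dep `ST_AP`): the McShane extensions of `G` from the Katětov functions with
`∃ j ≤ n, y j ≤ D`: `M y = inf {G η + r | Kat d η, ∃ j ≤ n, η j ≤ D, ∀ j ≤ n, |y j - η j| ≤ r}`.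
(The set is nonempty: `η = d 0`; by `Lip1` it is bounded below by `G y`; for the lower bound
replace `η` by the `w` of `ST_AP`, `G η = G w`.) -/
def ST_MC : Prop := ∀ (d : ℕ → ℕ → ℝ), Met d → ∀ (f : ℕ → ℝ) (D : ℝ), 0 ≤ D → ∀ (n : ℕ)
  (G : (ℕ → ℝ) → ℝ), Lip1 n G →
  (∀ y, Kat d y → (∃ j ≤ n, y j ≤ D) → ∀ j, f j - y j - 2 * D ≤ G y) →
  ∃ M : (ℕ → ℝ) → ℝ, Lip1 n M ∧ (∀ y, Kat d y → (∃ j ≤ n, y j ≤ D) → M y = G y) ∧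
    ∀ y, Kat d y → ∀ j, f j - y j - 2 * D ≤ M y

/-- Row ST (dep `ST_MC`): with `M` from `ST_MC` for `G`, `m = - M` from `ST_MC` for `- G`, `- f`,
and `V y = max_{i ≤ n + 1} (f i - y i)`, put `G' = max m (min M V)`. -/
def ST_ST : Prop := ∀ (d : ℕ → ℕ → ℝ), Met d → ∀ (f : ℕ → ℝ), (∀ i j, |f i - f j| ≤ d i j) →
  ∀ (D : ℝ), 0 ≤ D → ∀ (n : ℕ) (G : (ℕ → ℝ) → ℝ), Lip1 n G → Inv d f D n G →
  ∃ G' : (ℕ → ℝ) → ℝ, Lip1 (n + 1) G' ∧ Inv d f D (n + 1) G' ∧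
    ∀ y, Kat d y → (∃ j ≤ n, y j ≤ D) → G' y = G y

/-- Row REC (dep `ST_ST`): recursion, `G 0 y = f 0 - y 0`. -/
def ST_REC : Prop := ∀ (d : ℕ → ℕ → ℝ), Met d → ∀ (f : ℕ → ℝ), (∀ i j, |f i - f j| ≤ d i j) →
  ∀ (D : ℝ), 0 ≤ D → ∃ G : ℕ → (ℕ → ℝ) → ℝ, (∀ n, Lip1 n (G n)) ∧ (∀ n, Inv d f D n (G n)) ∧
    ∀ m n, m ≤ n → ∀ y, Kat d y → (∃ j ≤ m, y j ≤ D) → G n y = G m y

/-- Row NOI: `P` = `Measure.infinitePi` (or `productMeasure`) of the laws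
`Pool.Agent.Helper94.CZ.law η hη` over `ℕ`; its image in the first `n + 1` coordinates is
`Measure.pi`, and `Pool.Agent.Helper94.CZ.contDiff_average` (change `+` and the index type). -/
def ST_NOI : Prop := ∀ η : ℝ, 0 < η → ∃ P : Measure (ℕ → ℝ), IsProbabilityMeasure P ∧
  (∀ᵐ t ∂P, ∀ j, |t j| ≤ η) ∧ ∀ (n : ℕ) (g : (Fin (n + 1) → ℝ) → ℝ), Continuous g →
    (∀ a : Fin (n + 1) → ℝ, Integrable (fun t : ℕ → ℝ => g (fun i => a i + t i)) P) ∧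
    ContDiff ℝ ∞ (fun a : Fin (n + 1) → ℝ => ∫ t, g (fun i => a i + t i) ∂P)

/-- Row FIN (deps `ST_REC`, `ST_NOI`; helper8). -/
def ST_FIN.{u} : Prop := ∀ (X : Type u) [NormedAddCommGroup X] [NormedSpace ℝ X]
  (k : WithTop ℕ∞) (c : ℝ), k ≤ ∞ → Pool.Agent.Helper8.SE.NormApp k X c → ∀ (f : X → ℝ),
  (∀ x y, |f x - f y| ≤ ‖x - y‖) → ∀ (z : ℕ → X), DenseRange z → ∀ ε : ℝ, 0 < ε →
  ∃ K : X → ℝ, ContDiff ℝ k K ∧ (∀ x y, |K x - K y| ≤ c * ‖x - y‖) ∧ ∀ x, |f x - K x| < ε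

end Pool.Agent.Helper8.KT
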