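import Pool.Agent.Helper8.KT.Final

/-! Sheet KT, third part. -/

open scoped ContDiff NNReal
open Set Filter Topology

namespace Pool.Agent.Helper8.KT

/-- Row BM (dep `ST_FIN`): norms which are limits of `C^k` norms. Choose `η` with `1 + η ≤ A`, let
`N` be the norm, `VQ N` (module `Pool.Agent.Helper8.SE.HR`: `VQ`, `VQ_core`, and the proof of
`hR_of` for the continuous linear equivalence `T : VQ N ≃L[ℝ] Z`) the space with the norm `N`; it
is separable; `NormApp k (VQ N) 1` with `ν x = φ (N x)`, `φ : ℝ → ℝ` smooth, `1`-Lipschitz,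
constant near `0`, `|φ t - t| ≤ δ` for `t ≥ 0` (for example the smooth step: average of
`max (t - δ/2) 0` over a noise of size `δ/4`); apply `star_of_normApp`; `f` is
`L (1 + η)`-Lipschitz for `N`, and `K` is then `L (1 + η)`-Lipschitz for the norm of `Z`. -/
def ST_BM.{u} : Prop := ∀ (Z : Type u) [NormedAddCommGroup Z] [NormedSpace ℝ Z]
  [TopologicalSpace.SeparableSpace Z] (k : WithTop ℕ∞), k ≤ ∞ →
  (∀ η : ℝ, 0 < η → ∃ N : Seminorm ℝ Z, (∀ x, N x ≤ ‖x‖) ∧ (∀ x, ‖x‖ ≤ (1 + η) * N x) ∧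
    ContDiffOn ℝ k N {0}ᶜ) →
  ∀ (A : ℝ≥0), 1 < A → ∀ (f : Z → ℝ) (L : ℝ≥0), LipschitzWith L f → ∀ ε : ℝ, 0 < ε →
    ∃ K : Z → ℝ, ContDiff ℝ k K ∧ LipschitzWith (A * L) K ∧ ∀ x, |f x - K x| < ε

end Pool.Agent.Helper8.KT
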