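import Pool.Agent.Helper8.KT.All
import Pool.Agent.Helper94.SR.Inst

/-! The form for equivalent norms, and subspaces. -/

open scoped ContDiff NNReal
open Set Filter Topology

namespace Pool.Agent.Helper8.KT

theorem starAll_one.{u} (V : Type u) [NormedAddCommGroup V] [NormedSpace ℝ V]
    [TopologicalSpace.SeparableSpace (StrongDual ℝ V)] :
    Pool.Agent.Helper94.SR.StarAll 1 V 1 := fun q M hM h1 h2 g Λ hΛ hg δ hδ => by
  have := hR_one allFin q M hM h1 h2 g Λ hΛ hg δ hδ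
  simpa using this

/-- The dual of a space which embeds into a space with separable dual is separable. -/
theorem dual_sep_embed {Z X : Type*} [NormedAddCommGroup Z] [NormedSpace ℝ Z]
    [NormedAddCommGroup X] [NormedSpace ℝ X] [TopologicalSpace.SeparableSpace (StrongDual ℝ X)]
    (T : Z →L[ℝ] X) (c : ℝ) (hc : 0 < c) (hT : ∀ z, c * ‖z‖ ≤ ‖T z‖) :
    TopologicalSpace.SeparableSpace (StrongDual ℝ Z) := by
  let R : StrongDual ℝ X → StrongDual ℝ Z := fun g => g.comp T
  have hR : Continuous R := (ContinuousLinearMap.precomp ℝ T).continuous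
  have hinj : Function.Injective (T : Z →ₗ[ℝ] X) := by
    rw [← LinearMap.ker_eq_bot, LinearMap.ker_eq_bot']
    intro z hz
    have h := hT z
    have hz' : T z = 0 := hz
    rw [hz', norm_zero] at h
    have : ‖z‖ ≤ 0 := by
      by_contra hcon
      push Not at hcon
      have := mul_pos hc hcon
      linarith
    exact norm_le_zero_iff.1 this
  have hs : Function.Surjective R := by
    intro g
    let e := LinearEquiv.ofInjective (T : Z →ₗ[ℝ] X) hinj
    let g₀ : LinearMap.range (T : Z →ₗ[ℝ] X) →ₗ[ℝ] ℝ := (g : Z →ₗ[ℝ] ℝ) ∘ₗ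
      (e.symm : LinearMap.range (T : Z →ₗ[ℝ] X) →ₗ[ℝ] Z)
    have hb : ∀ w, ‖g₀ w‖ ≤ (‖g‖ / c) * ‖w‖ := by
      intro w
      have h1 : ‖g₀ w‖ ≤ ‖g‖ * ‖e.symm w‖ := g.le_opNorm _
      have h2 : c * ‖e.symm w‖ ≤ ‖w‖ := by
        have h3 := hT (e.symm w)
        have h4 : T (e.symm w) = (w : X) := congrArg Subtype.val (e.apply_symm_apply w)
        rw [h4] at h3
        exact h3
      have h5 : ‖e.symm w‖ ≤ ‖w‖ / c := by
        rw [le_div_iff₀ hc]
        linarith
      calc ‖g₀ w‖ ≤ ‖g‖ * ‖e.symm w‖ := h1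
        _ ≤ ‖g‖ * (‖w‖ / c) := mul_le_mul_of_nonneg_left h5 (norm_nonneg _)
        _ = (‖g‖ / c) * ‖w‖ := by ring
    obtain ⟨h, hh, _⟩ := exists_extension_norm_eq (LinearMap.range (T : Z →ₗ[ℝ] X))
      (LinearMap.mkContinuous g₀ (‖g‖ / c) hb)
    refine ⟨h, ?_⟩
    ext z
    have h1 := hh ⟨T z, ⟨z, rfl⟩⟩
    simp only [LinearMap.mkContinuous_apply] at h1
    have h2 : e.symm ⟨T z, ⟨z, rfl⟩⟩ = z := by
      apply e.injective
      rw [e.apply_symm_apply]
      rfl
    have h3 : g₀ ⟨T z, ⟨z, rfl⟩⟩ = g (e.symm ⟨T z, ⟨z, rfl⟩⟩) := rfl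
    rw [h3, h2] at h1
    exact h1
  exact hs.denseRange.separableSpace hR

end Pool.Agent.Helper8.KT
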