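import Pool.Agent.Helper8.KT.StarAll
import Pool.Agent.Helper4.KT.DC0
import Pool.Agent.Helper94.UP.Sheet

/-! All orders of smoothness. -/

open scoped ZeroAtInfty ContDiff NNReal
open Set Filter Topology

namespace Pool.Agent.Helper8.KT

open Pool.Agent.Helper94.UF Pool.Agent.Helper94.SR Pool.Agent.Helper94.UP

/-- Restriction of the embedding data to a subspace. -/
noncomputable def ekComp {k : WithTop ℕ∞} {X Z Γ : Type*} [NormedAddCommGroup X]
    [NormedSpace ℝ X] [NormedAddCommGroup Z] [NormedSpace ℝ Z] (K : EK k X Γ) (T : Z →L[ℝ] X)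
    (c' : ℝ) (hc' : 0 < c') (hT : ∀ z, c' * ‖z‖ ≤ ‖T z‖) : EK k Z Γ where
  Φ := fun z => K.Φ (T z)
  isC0 := fun z => K.isC0 (T z)
  smooth := fun γ => (K.smooth γ).comp T.contDiff
  L := K.L * (‖T‖ + 1)
  L0 := mul_pos K.L0 (by positivity)
  upper := fun x y γ => by
    refine (K.upper (T x) (T y) γ).trans ?_
    rw [← map_sub, mul_assoc]
    refine mul_le_mul_of_nonneg_left ?_ K.L0.le
    refine (T.le_opNorm _).trans (mul_le_mul_of_nonneg_right (by linarith) (norm_nonneg _))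
  c := K.c * c'
  c0 := mul_pos K.c0 hc'
  lower := fun x y r hr h => by
    have h1 := K.lower (T x) (T y) r hr h
    rw [← map_sub] at h1
    have h2 := hT (x - y)
    have h3 : K.c * (c' * ‖x - y‖) ≤ K.c * ‖T (x - y)‖ :=
      mul_le_mul_of_nonneg_left h2 K.c0.le
    calc K.c * c' * ‖x - y‖ = K.c * (c' * ‖x - y‖) := by ring
      _ ≤ K.c * ‖T (x - y)‖ := h3
      _ ≤ r := h1

/-- The upgrade. -/
theorem starAll_up.{u, v} (h1 : ST_A1.{u, v}) (h5 : ST_A5.{u}) {k : WithTop ℕ∞} (hk : k ≤ ∞)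
    {V : Type u} [NormedAddCommGroup V] [NormedSpace ℝ V]
    [TopologicalSpace.SeparableSpace (StrongDual ℝ V)] {Γ : Type v} (K : EK k V Γ) (C : ℝ)
    (hC : 1 < C) : StarAll k V C := by
  have hs : TopologicalSpace.SeparableSpace V := Pool.Agent.Helper8.SE.stSEP V
  obtain ⟨D, hD, hA⟩ := h1 hk K
  exact h5 hk hD hA (starAll_one V) C hC

/-- Constant exactly one. -/
theorem star_one_of_all {k : WithTop ℕ∞} (hk : k ≤ ∞) (hk1 : 1 ≤ k) {Z : Type*}
    [NormedAddCommGroup Z] [NormedSpace ℝ Z]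
    (H : ∀ C : ℝ≥0, 1 < C → ∀ (f : Z → ℝ) (L : ℝ≥0), LipschitzWith L f → ∀ ε : ℝ, 0 < ε →
      ∃ K : Z → ℝ, ContDiff ℝ k K ∧ LipschitzWith (C * L) K ∧ ∀ y, |f y - K y| < ε)
    (f : Z → ℝ) (L : ℝ≥0) (hf : LipschitzWith L f) (ε : ℝ) (hε : 0 < ε) :
    ∃ K : Z → ℝ, ContDiff ℝ k K ∧ LipschitzWith (1 * L) K ∧ ∀ y, |f y - K y| < ε := by
  have hf' : ∀ x y, |f x - f y| ≤ (L : ℝ) * ‖x - y‖ := fun x y => by
    have := hf.dist_le_mul x y
    rwa [Real.dist_eq, dist_eq_norm] at this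
  obtain ⟨h, h1, h2, h3⟩ := star_const hk hk1 (Cr := 1) zero_le_one
    (fun C₀ hC₀ g Λ hΛ hg ϵ hϵ => by
      have hgl : LipschitzWith (Real.toNNReal Λ) g :=
        LipschitzWith.of_dist_le_mul fun x y => by
          rw [Real.coe_toNNReal _ hΛ, Real.dist_eq, dist_eq_norm]
          exact hg x y
      have hC₀' : (0 : ℝ) ≤ C₀ := by linarith
      obtain ⟨K, k1, k2, k3⟩ := H (Real.toNNReal C₀) (by
        rw [← NNReal.coe_lt_coe, Real.coe_toNNReal _ hC₀', NNReal.coe_one]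
        exact hC₀) g _ hgl ϵ hϵ
      refine ⟨K, k1, fun x y => ?_, k3⟩
      have := k2.dist_le_mul x y
      rw [Real.dist_eq, dist_eq_norm, NNReal.coe_mul, Real.coe_toNNReal _ hC₀',
        Real.coe_toNNReal _ hΛ] at this
      rw [one_mul]
      exact this) L.2 hf' hε
  refine ⟨h, h1, LipschitzWith.of_dist_le_mul fun x y => ?_, h3⟩
  rw [Real.dist_eq, dist_eq_norm]
  exact h2 x y

/-- From the seminorm form to the norm. -/
theorem star_of_starAll {k : WithTop ℕ∞} {Z : Type*} [NormedAddCommGroup Z] [NormedSpace ℝ Z]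
    {C : ℝ≥0} (H : StarAll k Z C) (f : Z → ℝ) (L : ℝ≥0) (hf : LipschitzWith L f) (ε : ℝ)
    (hε : 0 < ε) :
    ∃ K : Z → ℝ, ContDiff ℝ k K ∧ LipschitzWith (C * L) K ∧ ∀ y, |f y - K y| < ε := by
  have hf' : ∀ x y, |f x - f y| ≤ (L : ℝ) * normSeminorm ℝ Z (x - y) := fun x y => by
    have := hf.dist_le_mul x y
    rwa [Real.dist_eq, dist_eq_norm] at this
  obtain ⟨K, h1, h2, h3⟩ := H (normSeminorm ℝ Z) 1 one_pos (fun w => by simp) (fun w => by simp)
    f L L.2 hf' ε hε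
  refine ⟨K, h1, LipschitzWith.of_dist_le_mul fun x y => ?_, h3⟩
  rw [Real.dist_eq, dist_eq_norm]
  have := h2 x y
  rw [NNReal.coe_mul]
  exact this

end Pool.Agent.Helper8.KT
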